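import Pool.Agent.Helper3.TN.GoalsZ
import Pool.Agent.Helper81.VN.BRU

/-!
Project TN (MP_a41896_nt), packet BRUA (helper90): block Roth lemma, the coordinate `a` is missing in all blocks.
-/

set_option autoImplicit false

open MvPolynomial

namespace Pool.Agent.Helper90.TN.BRUA

open Pool.Agent.Helper92.Ru Pool.Agent.Helper42.SG Pool.Agent.Helper68.VN
open Pool.Agent.Helper81.VN.BRU

/-- the embedding of the variables -/
def em {σ : Type} (n : ℕ) (a : σ) : Fin n × {i : σ // i ≠ a} → Fin n × σ :=
  fun h => (h.1, h.2.val)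

theorem em_inj {σ : Type} (n : ℕ) (a : σ) : Function.Injective (em n a) := by
  rintro ⟨j, i⟩ ⟨j', i'⟩ h
  simp only [em, Prod.mk.injEq] at h
  rw [h.1, Subtype.ext h.2]

/-- the index of a polynomial in a part of the variables -/
theorem IndGe_sub {k : Type} [Field k] {τ υ : Type} [Fintype τ] [Fintype υ] (e : τ → υ)
    (he : Function.Injective e) (r : υ → ℕ) (ξ : υ → k) (θ : ℝ) (p : MvPolynomial τ k)
    (h : IndGe r ξ θ (rename e p)) : IndGe (fun h => r (e h)) (fun h => ξ (e h)) θ p := by
  classical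
  intro w hw
  have h1 : Finsupp.mapDomain e w ∈ (shiftP ξ (rename e p)).support := by
    rw [shift_rename, mem_support_rename e he]
    exact hw
  refine (h _ h1).trans (le_of_eq ?_)
  symm
  apply Fintype.sum_of_injective e he
  · intro i hi
    rw [Finsupp.mapDomain_of_notMem_range _ _ hi]
    simp
  · intro i
    rw [Finsupp.mapDomain_apply he]

theorem t (hBRU : Pool.Agent.Helper68.VN.BRU) : Pool.Agent.Helper3.TN.BRUA := by
  classical
  intro k _ _ σ _ _ n ι hι
  have hc := fun a : σ => hBRU k {i : σ // i ≠ a} n ι hι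
  choose D Kc ω hK hω hω1 hB using hc
  refine ⟨∑ a, D a, 1 + ∑ a, Kc a, ∏ a, ω a, ?_, ?_, ?_, ?_⟩
  · have : 0 ≤ ∑ a, Kc a := Finset.sum_nonneg fun a _ => zero_le_one.trans (hK a)
    linarith
  · exact Finset.prod_pos fun a _ => hω a
  · exact Finset.prod_le_one (fun a _ => (hω a).le) fun a _ => hω1 a
  intro a d ξ H W p hd hdd hp hpa hW hdeg hPH hInd
  -- the polynomial in the variables of the blocks
  obtain ⟨p', hp'⟩ : ∃ p' : MvPolynomial (Fin n × {i : σ // i ≠ a}) k, rename (em n a) p' = p := by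
    apply exists_rename_eq_of_vars_subset_range p (em n a) (em_inj n a)
    intro h hh
    obtain ⟨j, i⟩ := h
    refine ⟨(j, ⟨i, ?_⟩), rfl⟩
    rintro rfl
    exact (mem_vars_iff_degreeOf_ne_zero.1 hh) (hpa j)
  have hprod : ∏ b, ω b ≤ ω a := by
    rw [← Finset.mul_prod_erase Finset.univ ω (Finset.mem_univ a)]
    exact mul_le_of_le_one_right (hω a).le
      (Finset.prod_le_one (fun b _ => (hω b).le) fun b _ => hω1 b)
  obtain ⟨j, f, hf0, hfD, hfe, hfh⟩ := hB a d (fun j i => ξ j i.val) H W p' hd (by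
      intro j j' hjj
      exact (hdd j j' hjj).trans (mul_le_mul_of_nonneg_right hprod (Nat.cast_nonneg _))) (by
      rintro rfl
      apply hp
      rw [← hp', map_zero]) hW (by
      intro h
      have h1 := hdeg (em n a h)
      rw [← hp', degreeOf_rename_of_injective (em_inj n a)] at h1
      exact h1) (by
      rw [← hp', PH_rename _ (em_inj n a)] at hPH
      exact hPH) (by
      apply IndGe_sub (em n a) (em_inj n a) (fun h : Fin n × σ => d h.1)
        (fun h : Fin n × σ => ξ h.1 h.2)
      rw [hp']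
      exact hInd)
  have hH : 0 ≤ H := (Nat.cast_nonneg (d j)).trans (hd j).2
  have hzero : (rename (Subtype.val : {i : σ // i ≠ a} → σ) f).degreeOf a = 0 := by
    by_contra hne
    have h1 := mem_vars_iff_degreeOf_ne_zero.2 hne
    have h2 := vars_rename (Subtype.val : {i : σ // i ≠ a} → σ) f h1
    rw [Finset.mem_image] at h2
    obtain ⟨⟨i, hi⟩, -, hi2⟩ := h2
    exact hi hi2
  refine ⟨j, rename Subtype.val f, ?_, ?_, hzero, ?_, ?_⟩
  · intro h0
    apply hf0
    apply rename_injective _ Subtype.val_injective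
    rw [h0, map_zero]
  · intro i
    by_cases hi : i = a
    · rw [hi, hzero]
      exact Nat.zero_le _
    · have h2 : (rename (Subtype.val : {i : σ // i ≠ a} → σ) f).degreeOf
          ((⟨i, hi⟩ : {i : σ // i ≠ a}) : σ) = f.degreeOf ⟨i, hi⟩ :=
        degreeOf_rename_of_injective Subtype.val_injective _
      have h3 : D a ≤ ∑ a, D a := Finset.single_le_sum (fun b _ => Nat.zero_le (D b))
        (Finset.mem_univ a)
      exact (h2.le.trans (hfD ⟨i, hi⟩)).trans h3
  · rw [eval_rename]
    exact hfe
  · rw [PH_rename _ Subtype.val_injective]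
    refine hfh.trans (mul_le_mul_of_nonneg_right ?_ hH)
    have h3 : Kc a ≤ ∑ a, Kc a := Finset.single_le_sum
      (fun b _ => zero_le_one.trans (hK b)) (Finset.mem_univ a)
    linarith

end Pool.Agent.Helper90.TN.BRUA
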